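import Mathlib
import Pool.Agent.H254R3.NCJ.Defs

/-!
# The split colour algebra over an extension field

`CA K` is the seven-dimensional algebra `K ⊕ K³ ⊕ K³` with
`(a,v,v')(b,w,w') = (ab - 2(v·w' + v'·w), a w + b v + 2 v' × w', a w' + b v' + 2 v × w)`.
-/

set_option autoImplicit false

namespace Pool.Agent.J4H69.NCJ

open Pool.Agent.H254R3.NCJ

/-- the split colour algebra over `K` (seven coordinates) -/
def CA (K : Type) : Type := Fin 7 → K

section basic

variable {K : Type} [Field K]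

instance : AddCommGroup (CA K) := inferInstanceAs (AddCommGroup (Fin 7 → K))

/-- the product of the colour algebra -/
def cmul (x y : CA K) : CA K :=
  ![x 0 * y 0 - 2 * (x 1 * y 4 + x 2 * y 5 + x 3 * y 6 + x 4 * y 1 + x 5 * y 2 + x 6 * y 3),
    x 0 * y 1 + x 1 * y 0 + 2 * (x 5 * y 6 - x 6 * y 5),
    x 0 * y 2 + x 2 * y 0 + 2 * (x 6 * y 4 - x 4 * y 6),
    x 0 * y 3 + x 3 * y 0 + 2 * (x 4 * y 5 - x 5 * y 4),
    x 0 * y 4 + x 4 * y 0 + 2 * (x 2 * y 3 - x 3 * y 2),
    x 0 * y 5 + x 5 * y 0 + 2 * (x 3 * y 1 - x 1 * y 3),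
    x 0 * y 6 + x 6 * y 0 + 2 * (x 1 * y 2 - x 2 * y 1)]

instance : Mul (CA K) := ⟨cmul⟩

theorem mul0 (x y : CA K) : (x * y) 0 =
    x 0 * y 0 - 2 * (x 1 * y 4 + x 2 * y 5 + x 3 * y 6 + x 4 * y 1 + x 5 * y 2 + x 6 * y 3) := rfl
theorem mul1 (x y : CA K) : (x * y) 1 = x 0 * y 1 + x 1 * y 0 + 2 * (x 5 * y 6 - x 6 * y 5) := rfl
theorem mul2 (x y : CA K) : (x * y) 2 = x 0 * y 2 + x 2 * y 0 + 2 * (x 6 * y 4 - x 4 * y 6) := rfl
theorem mul3 (x y : CA K) : (x * y) 3 = x 0 * y 3 + x 3 * y 0 + 2 * (x 4 * y 5 - x 5 * y 4) := rfl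
theorem mul4 (x y : CA K) : (x * y) 4 = x 0 * y 4 + x 4 * y 0 + 2 * (x 2 * y 3 - x 3 * y 2) := rfl
theorem mul5 (x y : CA K) : (x * y) 5 = x 0 * y 5 + x 5 * y 0 + 2 * (x 3 * y 1 - x 1 * y 3) := rfl
theorem mul6 (x y : CA K) : (x * y) 6 = x 0 * y 6 + x 6 * y 0 + 2 * (x 1 * y 2 - x 2 * y 1) := rfl
theorem add_ap (x y : CA K) (i : Fin 7) : (x + y) i = x i + y i := rfl
theorem sub_ap (x y : CA K) (i : Fin 7) : (x - y) i = x i - y i := rfl
theorem zero_ap (i : Fin 7) : (0 : CA K) i = 0 := rfl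

omit [Field K] in
theorem ext7 {x y : CA K} (h0 : x 0 = y 0) (h1 : x 1 = y 1) (h2 : x 2 = y 2) (h3 : x 3 = y 3)
    (h4 : x 4 = y 4) (h5 : x 5 = y 5) (h6 : x 6 = y 6) : x = y := by
  funext i
  fin_cases i <;> assumption

instance : NonUnitalNonAssocRing (CA K) :=
  { (inferInstance : AddCommGroup (CA K)), (inferInstance : Mul (CA K)) with
    left_distrib := by
      intro x y z
      apply ext7 <;> simp only [mul0, mul1, mul2, mul3, mul4, mul5, mul6, add_ap] <;> ring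
    right_distrib := by
      intro x y z
      apply ext7 <;> simp only [mul0, mul1, mul2, mul3, mul4, mul5, mul6, add_ap] <;> ring
    zero_mul := by
      intro x
      apply ext7 <;> simp only [mul0, mul1, mul2, mul3, mul4, mul5, mul6, zero_ap] <;> ring
    mul_zero := by
      intro x
      apply ext7 <;> simp only [mul0, mul1, mul2, mul3, mul4, mul5, mul6, zero_ap] <;> ring }

theorem flexible (x y : CA K) : (x * y) * x = x * (y * x) := by
  apply ext7 <;> simp only [mul0, mul1, mul2, mul3, mul4, mul5, mul6] <;> ring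

theorem jordan (x y : CA K) : ((x * x) * y) * x = (x * x) * (y * x) := by
  apply ext7 <;> simp only [mul0, mul1, mul2, mul3, mul4, mul5, mul6] <;> ring

theorem comm_id : CommIdentity (CA K) := by
  intro x y
  apply ext7 <;> simp only [mul0, mul1, mul2, mul3, mul4, mul5, mul6, sub_ap] <;> ring

theorem ncj : IsNCJordan (CA K) := ⟨flexible, jordan⟩

/-- the scalar `c · 1` -/
def sc (c : K) : CA K := ![c, 0, 0, 0, 0, 0, 0]

theorem sc0 (c : K) : (sc c) 0 = c := rfl
theorem sc1 (c : K) : (sc c) 1 = 0 := rfl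
theorem sc2 (c : K) : (sc c) 2 = 0 := rfl
theorem sc3 (c : K) : (sc c) 3 = 0 := rfl
theorem sc4 (c : K) : (sc c) 4 = 0 := rfl
theorem sc5 (c : K) : (sc c) 5 = 0 := rfl
theorem sc6 (c : K) : (sc c) 6 = 0 := rfl

theorem sc_one_mul (x : CA K) : sc 1 * x = x := by
  apply ext7 <;> simp only [mul0, mul1, mul2, mul3, mul4, mul5, mul6, sc0, sc1, sc2, sc3, sc4,
    sc5, sc6] <;> ring

theorem mul_sc_one (x : CA K) : x * sc 1 = x := by
  apply ext7 <;> simp only [mul0, mul1, mul2, mul3, mul4, mul5, mul6, sc0, sc1, sc2, sc3, sc4,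
    sc5, sc6] <;> ring

theorem sc_mul_sc (a b : K) : sc a * sc b = sc (a * b) := by
  apply ext7 <;> simp only [mul0, mul1, mul2, mul3, mul4, mul5, mul6, sc0, sc1, sc2, sc3, sc4,
    sc5, sc6] <;> ring

/-- the `i`-th unit vector -/
def ev (i : Fin 7) : CA K := fun j => if j = i then 1 else 0

theorem ev_ap (i j : Fin 7) : (ev i : CA K) j = if j = i then 1 else 0 := rfl

theorem k1 (x : CA K) : (x * ev 2 - ev 2 * x) * ev 3 = sc (-8 * x 1) := by
  apply ext7 <;> simp [mul0, mul1, mul2, mul3, mul4, mul5, mul6, sc0, sc1, sc2, sc3, sc4,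
    sc5, sc6, sub_ap, ev_ap] <;> ring

theorem k2 (x : CA K) : (x * ev 3 - ev 3 * x) * ev 1 = sc (-8 * x 2) := by
  apply ext7 <;> simp [mul0, mul1, mul2, mul3, mul4, mul5, mul6, sc0, sc1, sc2, sc3, sc4,
    sc5, sc6, sub_ap, ev_ap] <;> ring

theorem k3 (x : CA K) : (x * ev 1 - ev 1 * x) * ev 2 = sc (-8 * x 3) := by
  apply ext7 <;> simp [mul0, mul1, mul2, mul3, mul4, mul5, mul6, sc0, sc1, sc2, sc3, sc4,
    sc5, sc6, sub_ap, ev_ap] <;> ring

theorem k4 (x : CA K) : (x * ev 5 - ev 5 * x) * ev 6 = sc (-8 * x 4) := by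
  apply ext7 <;> simp [mul0, mul1, mul2, mul3, mul4, mul5, mul6, sc0, sc1, sc2, sc3, sc4,
    sc5, sc6, sub_ap, ev_ap] <;> ring

theorem k5 (x : CA K) : (x * ev 6 - ev 6 * x) * ev 4 = sc (-8 * x 5) := by
  apply ext7 <;> simp [mul0, mul1, mul2, mul3, mul4, mul5, mul6, sc0, sc1, sc2, sc3, sc4,
    sc5, sc6, sub_ap, ev_ap] <;> ring

theorem k6 (x : CA K) : (x * ev 4 - ev 4 * x) * ev 5 = sc (-8 * x 6) := by
  apply ext7 <;> simp [mul0, mul1, mul2, mul3, mul4, mul5, mul6, sc0, sc1, sc2, sc3, sc4,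
    sc5, sc6, sub_ap, ev_ap] <;> ring

theorem not_alt (h2 : (2 : K) ≠ 0) : ¬ IsAlternative (CA K) := by
  intro h
  have e := congrFun (h (ev 1 + ev 4) (ev 1 - ev 4)).2 1
  simp [mul0, mul1, mul2, mul3, mul4, mul5, mul6, sub_ap, add_ap, ev_ap] at e
  apply h2
  norm_num at e
  exact e

theorem not_jordan (h2 : (2 : K) ≠ 0) : ¬ IsJordanAlg (CA K) := by
  intro h
  have e := congrFun (h.1 (ev 1) (ev 2)) 6
  simp [mul6, ev_ap] at e
  apply h2
  have : (2 : K) * 2 = 0 := by linear_combination e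
  simpa using this

end basic

section alg

variable (F K : Type) [Field F] [Field K] [Algebra F K]

instance : Module F (CA K) := inferInstanceAs (Module F (Fin 7 → K))

variable {F K}

theorem smul_ap (f : F) (x : CA K) (i : Fin 7) : (f • x) i = algebraMap F K f * x i := by
  rw [← Algebra.smul_def]
  rfl

variable (F K)

instance : IsScalarTower F (CA K) (CA K) := ⟨fun f x y => by
  simp only [smul_eq_mul]
  apply ext7 <;> simp only [mul0, mul1, mul2, mul3, mul4, mul5, mul6, smul_ap] <;> ring⟩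

instance : SMulCommClass F (CA K) (CA K) := ⟨fun f x y => by
  simp only [smul_eq_mul]
  apply ext7 <;> simp only [mul0, mul1, mul2, mul3, mul4, mul5, mul6, smul_ap] <;> ring⟩

theorem simple (h2 : (2 : K) ≠ 0) : IsSimpleAlg F (CA K) := by
  refine ⟨⟨sc 1, sc 1, ?_⟩, ?_⟩
  · rw [sc_mul_sc]
    intro h
    have := congrFun h 0
    simp [sc0, zero_ap] at this
  · intro I hI
    by_cases hb : I = ⊥
    · exact Or.inl hb
    right
    obtain ⟨x, hx, hx0⟩ := (Submodule.ne_bot_iff I).1 hb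
    -- a nonzero scalar lies in `I`
    have h8 : (-8 : K) ≠ 0 := by
      have : (-8 : K) = -(2 * 2 * 2) := by norm_num
      rw [this]
      exact neg_ne_zero.2 (mul_ne_zero (mul_ne_zero h2 h2) h2)
    have key : ∀ a b : CA K, (x * a - a * x) * b ∈ I := fun a b =>
      (hI _ (I.sub_mem (hI x hx a).2 (hI x hx a).1) b).2
    have hc : ∃ c : K, c ≠ 0 ∧ sc c ∈ I := by
      by_cases h1 : x 1 = 0
      swap
      · exact ⟨_, mul_ne_zero h8 h1, k1 x ▸ key _ _⟩
      by_cases h2' : x 2 = 0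
      swap
      · exact ⟨_, mul_ne_zero h8 h2', k2 x ▸ key _ _⟩
      by_cases h3 : x 3 = 0
      swap
      · exact ⟨_, mul_ne_zero h8 h3, k3 x ▸ key _ _⟩
      by_cases h4 : x 4 = 0
      swap
      · exact ⟨_, mul_ne_zero h8 h4, k4 x ▸ key _ _⟩
      by_cases h5 : x 5 = 0
      swap
      · exact ⟨_, mul_ne_zero h8 h5, k5 x ▸ key _ _⟩
      by_cases h6 : x 6 = 0
      swap
      · exact ⟨_, mul_ne_zero h8 h6, k6 x ▸ key _ _⟩
      have hxs : x = sc (x 0) := ext7 rfl h1 h2' h3 h4 h5 h6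
      refine ⟨x 0, fun h0 => hx0 ?_, hxs ▸ hx⟩
      exact ext7 h0 h1 h2' h3 h4 h5 h6
    obtain ⟨c, hc0, hcI⟩ := hc
    have h1I : sc (1 : K) ∈ I := by
      have := (hI _ hcI (sc c⁻¹)).1
      rwa [sc_mul_sc, inv_mul_cancel₀ hc0] at this
    rw [eq_top_iff]
    intro y _
    have := (hI _ h1I y).1
    rwa [mul_sc_one] at this

theorem not_finite (hK : ¬ Module.Finite F K) : ¬ Module.Finite F (CA K) := by
  intro h
  apply hK
  let p : CA K →ₗ[F] K :=
    { toFun := fun x => x 0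
      map_add' := fun x y => rfl
      map_smul' := fun f x => rfl }
  exact Module.Finite.of_surjective p fun c => ⟨sc c, rfl⟩

end alg

theorem ratFunc_not_finite (F : Type) [Field F] : ¬ Module.Finite F (RatFunc F) := by
  intro h
  have : Algebra.IsAlgebraic F (RatFunc F) := Algebra.IsAlgebraic.of_finite F (RatFunc F)
  exact RatFunc.transcendental_X (Algebra.IsAlgebraic.isAlgebraic (RatFunc.X (K := F)))

/-- Over every field `F` of characteristic not two. -/
theorem main (F : Type) [Field F] (h2 : (2 : F) ≠ 0) :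
    ∃ (A : Type) (_ : NonUnitalNonAssocRing A) (_ : Module F A),
      IsScalarTower F A A ∧ SMulCommClass F A A ∧ ¬ Module.Finite F A ∧ IsSimpleAlg F A ∧
      IsNCJordan A ∧ CommIdentity A ∧ ¬ IsAlternative A ∧ ¬ IsJordanAlg A ∧
      ∃ e : A, ∀ x : A, e * x = x ∧ x * e = x := by
  have h2K : (2 : RatFunc F) ≠ 0 := by
    intro h
    apply h2
    have : algebraMap F (RatFunc F) 2 = algebraMap F (RatFunc F) 0 := by
      rw [map_ofNat, map_zero, h]
    exact (algebraMap F (RatFunc F)).injective this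
  exact ⟨CA (RatFunc F), inferInstance, inferInstance, inferInstance, inferInstance,
    not_finite F _ (ratFunc_not_finite F), simple F _ h2K, ncj, comm_id, not_alt h2K,
    not_jordan h2K, sc 1, fun x => ⟨sc_one_mul x, mul_sc_one x⟩⟩

end Pool.Agent.J4H69.NCJ
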